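import Pool.Agent.Lib.MP_b5021c_nt.IfaceL2

/-!
# Board b5, row JPL: induction in steps of `1/400`
-/

namespace Pool.Agent.B5.H40

open Pool.Agent.MP_b5021c_nt (Eis)

/-- Row JPL. -/
theorem jpl (h1 : JPTS) (h2 : JVLS) : JPLS := by
  have key : ∀ n : ℕ, ∀ θ : ℝ, θ ≤ (n : ℝ) / 400 → BdP Eis θ (2400 * θ) := by
    intro n
    induction n with
    | zero =>
      intro θ hθ P L _ _ _ _ _ phi D hD hP
      have h3 : 1 < θ := hP.1
      norm_num at hθ
      linarith
    | succ n ih =>
      intro θ hθ P L _ _ _ _ _ phi D hD hP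
      have h3 : 1 < θ := hP.1
      rcases Nat.lt_or_ge (Module.finrank ℤ L) 2 with h4 | h4
      · have h5 : (Module.finrank ℤ L : ℝ) ≤ 1 := by
          exact_mod_cast Nat.lt_succ_iff.mp h4
        linarith
      · apply h1 P L phi D θ hD hP h4 h2
        intro x hx
        apply ih
        push_cast at hθ
        linarith
  intro θ
  obtain ⟨n, hn⟩ := exists_nat_ge (400 * θ)
  exact key n θ (by linarith)

end Pool.Agent.B5.H40
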