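import Pool.Agent.Lib.MP_b5021c_nt.Defs

/-!
# Board b5: from Laurent polynomials to polynomials (used by LOV and LOP)
-/

namespace Pool.Agent.B5.H40

open Polynomial

section

variable {O : Type} [CommRing O] [Coef O]

theorem norm_evR (z : Circle) (n : ℤ) (q : O[X]) :
    ‖evR z (LaurentPolynomial.T n * toLaurent q)‖ = ‖(q.map (Coef.emb : O →+* ℂ)).eval (z : ℂ)‖ := by
  have h1 : evR z (LaurentPolynomial.T n * toLaurent q) =
      (((Circle.toUnits z) ^ n : ℂˣ) : ℂ) * (q.map (Coef.emb : O →+* ℂ)).eval (z : ℂ) := by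
    rw [map_mul]
    unfold evR
    rw [LaurentPolynomial.eval₂_T, LaurentPolynomial.eval₂_toLaurent, eval_map]
    rfl
  rw [h1, norm_mul]
  have h2 : ‖(((Circle.toUnits z) ^ n : ℂˣ) : ℂ)‖ = 1 := by
    rw [Units.val_zpow_eq_zpow_val, norm_zpow]
    have : ‖((Circle.toUnits z : ℂˣ) : ℂ)‖ = 1 := Circle.norm_coe z
    rw [this, one_zpow]
  rw [h2, one_mul]

theorem exists_normal (F : RO O) (hF : F ≠ 0) :
    ∃ (m : ℤ) (f : O[X]), F = LaurentPolynomial.T m * toLaurent f ∧ f.coeff 0 ≠ 0 := by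
  obtain ⟨n, f', hf'⟩ := LaurentPolynomial.exists_T_pow F
  have hf0 : f' ≠ 0 := by
    rintro rfl
    rw [map_zero] at hf'
    apply hF
    have h1 : F * LaurentPolynomial.T n * LaurentPolynomial.T (-n) = 0 := by
      rw [← hf', zero_mul]
    rw [LaurentPolynomial.mul_T_assoc, add_neg_cancel, LaurentPolynomial.T_zero, mul_one] at h1
    exact h1
  obtain ⟨N, hN⟩ : ∃ N, N = f'.natTrailingDegree := ⟨_, rfl⟩
  obtain ⟨g, hg⟩ : (X : O[X]) ^ N ∣ f' := by
    rw [X_pow_dvd_iff]
    intro d hd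
    rw [hN] at hd
    exact coeff_eq_zero_of_lt_natTrailingDegree hd
  refine ⟨(N : ℤ) - n, g, ?_, ?_⟩
  · have h1 : F = toLaurent f' * LaurentPolynomial.T (-n) := by
      rw [hf', LaurentPolynomial.mul_T_assoc, add_neg_cancel, LaurentPolynomial.T_zero, mul_one]
    rw [h1]
    conv_lhs => rw [hg]
    rw [map_mul, toLaurent_X_pow, LaurentPolynomial.T_sub]
    ring
  · have h1 : f'.coeff N ≠ 0 := by
      intro h0
      rw [hN] at h0
      exact hf0 (trailingCoeff_eq_zero.mp h0)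
    have h2 : f'.coeff N = g.coeff 0 := by
      conv_lhs => rw [hg]
      have := coeff_X_pow_mul g N 0
      rw [zero_add] at this
      exact this
    rwa [h2] at h1

/-- The unit `u T^k`. -/
noncomputable def uT (u : Oˣ) (k : ℤ) : (RO O)ˣ where
  val := LaurentPolynomial.C (u : O) * LaurentPolynomial.T k
  inv := LaurentPolynomial.C ((u⁻¹ : Oˣ) : O) * LaurentPolynomial.T (-k)
  val_inv := by
    have h1 : (LaurentPolynomial.C (u : O) : RO O) * LaurentPolynomial.C ((u⁻¹ : Oˣ) : O) = 1 := by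
      rw [← map_mul, Units.mul_inv, map_one]
    have h2 : (LaurentPolynomial.T k : RO O) * LaurentPolynomial.T (-k) = 1 := by
      rw [← LaurentPolynomial.T_add, add_neg_cancel, LaurentPolynomial.T_zero]
    calc LaurentPolynomial.C (u : O) * LaurentPolynomial.T k *
        (LaurentPolynomial.C ((u⁻¹ : Oˣ) : O) * LaurentPolynomial.T (-k))
        = (LaurentPolynomial.C (u : O) * LaurentPolynomial.C ((u⁻¹ : Oˣ) : O)) *
          (LaurentPolynomial.T k * LaurentPolynomial.T (-k)) := by ring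
      _ = 1 := by rw [h1, h2, one_mul]
  inv_val := by
    have h1 : (LaurentPolynomial.C ((u⁻¹ : Oˣ) : O) : RO O) * LaurentPolynomial.C (u : O) = 1 := by
      rw [← map_mul, Units.inv_mul, map_one]
    have h2 : (LaurentPolynomial.T (-k) : RO O) * LaurentPolynomial.T k = 1 := by
      rw [← LaurentPolynomial.T_add, neg_add_cancel, LaurentPolynomial.T_zero]
    calc LaurentPolynomial.C ((u⁻¹ : Oˣ) : O) * LaurentPolynomial.T (-k) *
        (LaurentPolynomial.C (u : O) * LaurentPolynomial.T k)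
        = (LaurentPolynomial.C ((u⁻¹ : Oˣ) : O) * LaurentPolynomial.C (u : O)) *
          (LaurentPolynomial.T (-k) * LaurentPolynomial.T k) := by ring
      _ = 1 := by rw [h1, h2, one_mul]

theorem uT_val (u : Oˣ) (k : ℤ) :
    ((uT u k : (RO O)ˣ) : RO O) = LaurentPolynomial.C (u : O) * LaurentPolynomial.T k := rfl

theorem uT_ne (u v : Oˣ) (k : ℤ) (h : u ≠ v) : (uT u k : (RO O)ˣ) ≠ uT v k := by
  intro h1
  apply h
  have h2 : ((uT u k : (RO O)ˣ) : RO O) = ((uT v k : (RO O)ˣ) : RO O) := by rw [h1]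
  rw [uT_val, uT_val] at h2
  have h3 := congrArg (fun p : RO O => (p * LaurentPolynomial.T (-k)).coeff 0) h2
  simp only [LaurentPolynomial.mul_T_assoc, add_neg_cancel, LaurentPolynomial.T_zero, mul_one,
    LaurentPolynomial.C_apply, if_true] at h3
  exact Units.ext h3

/-- The constant coefficient after the load `u T^(n - m + k)`. -/
theorem add_load (q f : O[X]) (n m : ℤ) (u : Oˣ) (k : ℕ) :
    LaurentPolynomial.T n * toLaurent q +
      ((uT u (n - m + k) : (RO O)ˣ) : RO O) * (LaurentPolynomial.T m * toLaurent f) =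
    LaurentPolynomial.T n * toLaurent (q + C (u : O) * X ^ k * f) := by
  rw [uT_val, map_add, map_mul, map_mul, toLaurent_X_pow, toLaurent_C]
  have h1 : (LaurentPolynomial.T (n - m + k) : RO O) * LaurentPolynomial.T m =
      LaurentPolynomial.T n * LaurentPolynomial.T k := by
    rw [← LaurentPolynomial.T_add, ← LaurentPolynomial.T_add]
    congr 1
    ring
  calc LaurentPolynomial.T n * toLaurent q + LaurentPolynomial.C (u : O) *
        LaurentPolynomial.T (n - m + k) * (LaurentPolynomial.T m * toLaurent f)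
      = LaurentPolynomial.T n * toLaurent q + LaurentPolynomial.C (u : O) *
        (LaurentPolynomial.T (n - m + k) * LaurentPolynomial.T m) * toLaurent f := by ring
    _ = LaurentPolynomial.T n * toLaurent q + LaurentPolynomial.C (u : O) *
        (LaurentPolynomial.T n * LaurentPolynomial.T k) * toLaurent f := by rw [h1]
    _ = _ := by ring

end

/-- Data of a load problem: polynomials instead of Laurent polynomials. -/
theorem to_poly {O : Type} [CommRing O] [Coef O] (n m : ℤ) (q f : O[X])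
    (hnz : ∀ z : Circle, evR z (LaurentPolynomial.T n * toLaurent q) ≠ 0)
    (hle : ∀ z : Circle, ‖evR z (LaurentPolynomial.T m * toLaurent f)‖ ≤
      ‖evR z (LaurentPolynomial.T n * toLaurent q)‖)
    (hne : ∃ z : Circle, ‖evR z (LaurentPolynomial.T m * toLaurent f)‖ ≠
      ‖evR z (LaurentPolynomial.T n * toLaurent q)‖) :
    (∀ z : ℂ, ‖z‖ = 1 → (q.map (Coef.emb : O →+* ℂ)).eval z ≠ 0) ∧
    (∀ z : ℂ, ‖z‖ = 1 → ‖(f.map (Coef.emb : O →+* ℂ)).eval z‖ ≤
      ‖(q.map (Coef.emb : O →+* ℂ)).eval z‖) ∧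
    (∃ z : ℂ, ‖z‖ = 1 ∧ ‖(f.map (Coef.emb : O →+* ℂ)).eval z‖ ≠
      ‖(q.map (Coef.emb : O →+* ℂ)).eval z‖) := by
  refine ⟨?_, ?_, ?_⟩
  · intro z hz h0
    obtain ⟨w, rfl⟩ : ∃ w : Circle, (w : ℂ) = z := ⟨⟨z, mem_sphere_zero_iff_norm.mpr hz⟩, rfl⟩
    apply hnz w
    have h1 := norm_evR w n q
    rw [h0, norm_zero] at h1
    exact norm_eq_zero.mp h1
  · intro z hz
    obtain ⟨w, rfl⟩ : ∃ w : Circle, (w : ℂ) = z := ⟨⟨z, mem_sphere_zero_iff_norm.mpr hz⟩, rfl⟩
    have h1 := hle w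
    rwa [norm_evR, norm_evR] at h1
  · obtain ⟨w, hw⟩ := hne
    refine ⟨(w : ℂ), Circle.norm_coe w, ?_⟩
    rwa [norm_evR, norm_evR] at hw

end Pool.Agent.B5.H40
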