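import Pool.Agent.Lib.MP_b5021c_nt.IfaceL2
import Pool.Agent.Lib.MP_b5021c_nt.B.H40.LoadBase
import Pool.Agent.Lib.MP_b5021c_nt.H40.Pca
import Pool.Agent.Lib.MP_b5021c_nt.H40.Pcb

/-!
# Board b5, row LOP: the loads in class `P`
-/

namespace Pool.Agent.B5.H40

open Polynomial
open Pool.Agent.MP_b5021c_nt (Eis)

/-- Factorisation `q = (1 - T X) s` when `q` has exactly one zero in the disc. -/
theorem one_zero_factor (q : ℂ[X]) (w : ℂ) (hq : q ≠ 0) (hw : w ≠ 0)
    (hroots : q.roots.filter (fun x => ‖x‖ < 1) = {w}) (hnz : ∀ z : ℂ, ‖z‖ = 1 → q.eval z ≠ 0) :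
    ∃ s : ℂ[X], q = (1 - C w⁻¹ * X) * s ∧ ∀ z : ℂ, ‖z‖ ≤ 1 → s.eval z ≠ 0 := by
  have hmem : w ∈ q.roots.filter (fun x => ‖x‖ < 1) := by rw [hroots]; simp
  rw [Multiset.mem_filter] at hmem
  have hroot : q.IsRoot w := (mem_roots hq).mp hmem.1
  obtain ⟨t, ht⟩ := dvd_iff_isRoot.mpr hroot
  have hfac : (1 - C w⁻¹ * X : ℂ[X]) * C (-w) = X - C w := by
    have h1 : (C w⁻¹ * C w : ℂ[X]) = 1 := by rw [← C_mul, inv_mul_cancel₀ hw, C_1]
    rw [C_neg]
    linear_combination X * h1
  have ht0 : t ≠ 0 := by rintro rfl; simp at ht; exact hq ht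
  refine ⟨C (-w) * t, ?_, ?_⟩
  · rw [ht, ← hfac]; ring
  · intro z hz h0
    rw [eval_mul, eval_C, mul_eq_zero] at h0
    rcases h0 with h0 | h0
    · exact hw (neg_eq_zero.mp h0)
    · rcases lt_or_eq_of_le hz with h1 | h1
      · have hr : q.roots = {w} + t.roots := by
          conv_lhs => rw [ht]
          rw [roots_mul (by rw [← ht]; exact hq), roots_X_sub_C]
        rw [hr, Multiset.filter_add] at hroots
        have h2 : z ∈ t.roots.filter (fun x => ‖x‖ < 1) := by
          rw [Multiset.mem_filter]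
          exact ⟨(mem_roots ht0).mpr h0, h1⟩
        have h3 : ({w} : Multiset ℂ).filter (fun x => ‖x‖ < 1) = {w} := by
          rw [Multiset.filter_eq_self]
          intro a ha
          rw [Multiset.mem_singleton] at ha
          rw [ha]
          exact hmem.2
        rw [h3] at hroots
        have h4 := congrArg Multiset.card hroots
        rw [Multiset.card_add] at h4
        simp only [Multiset.card_singleton] at h4
        have h5 : 0 < (t.roots.filter (fun x => ‖x‖ < 1)).card :=
          Multiset.card_pos_iff_exists_mem.mpr ⟨z, h2⟩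
        omega
      · apply hnz z h1
        rw [ht, eval_mul, h0, mul_zero]

/-- The real number `θ` is at least `7/5`. -/
theorem theta_ge (θ b : ℝ) (h1 : 1 < θ) (hb : 7 / 10 ≤ b) (h : b ≤ θ - 1 / θ) : 7 / 5 ≤ θ := by
  by_contra hcon
  push Not at hcon
  have h2 : 5 / 7 < 1 / θ := by
    rw [lt_div_iff₀ (by linarith)]
    linarith
  linarith

/-- Row LOP. -/
theorem lop (hPCZ : PCZS) : LOPS := by
  intro θ Q F hQ hF hnz hle hne
  obtain ⟨hθ, n, q, rfl, hq1, w, hw, hroots⟩ := hQ
  obtain ⟨m, f, rfl, hf0⟩ := exists_normal F hF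
  obtain ⟨hnz', hle', z0, hz0, hne'⟩ := to_poly n m q f hnz hle hne
  obtain ⟨qc, hqc⟩ : ∃ qc : ℂ[X], qc = q.map (Coef.emb : Eis →+* ℂ) := ⟨_, rfl⟩
  obtain ⟨fc, hfc⟩ : ∃ fc : ℂ[X], fc = f.map (Coef.emb : Eis →+* ℂ) := ⟨_, rfl⟩
  rw [← hqc] at hnz' hle' hne' hroots
  rw [← hfc] at hle' hne'
  have hθ0 : 0 < θ := by linarith
  have hw0 : w ≠ 0 := by
    rintro rfl
    rw [norm_zero] at hw
    have : 0 < θ⁻¹ := inv_pos.mpr hθ0
    linarith
  have hqc0 : qc ≠ 0 := by
    rintro rfl
    simp at hroots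
  obtain ⟨T, hT⟩ : ∃ T : ℂ, T = w⁻¹ := ⟨_, rfl⟩
  have hTn : ‖T‖ = θ := by rw [hT, norm_inv, hw, inv_inv]
  have hT1 : 1 < ‖T‖ := by rw [hTn]; exact hθ
  have hT0 : T ≠ 0 := norm_pos_iff.mp (by linarith)
  obtain ⟨s, hs, hsnz⟩ := one_zero_factor qc w hqc0 hw0 hroots hnz'
  rw [← hT] at hs
  obtain ⟨c, r, hY, hcb, hrb, hr0⟩ := pca qc fc s T hT1 hs hsnz hle'
  have hs0 : ‖s.eval 0‖ = 1 := by
    have h1 : qc.eval 0 = s.eval 0 := by rw [hs]; simp
    rw [← h1, hqc, ← coeff_zero_eq_eval_zero, coeff_map]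
    exact hq1
  have hqu : IsUnit (q.coeff 0) := Eis.isUnit_iff_emb.mpr hq1
  by_cases hfu : IsUnit (f.coeff 0)
  · -- type I
    left
    obtain ⟨v, hv⟩ : ∃ v : Eisˣ, v = -(hqu.unit * hfu.unit⁻¹) := ⟨_, rfl⟩
    have hvf : (v : Eis) * f.coeff 0 = -q.coeff 0 := by
      rw [hv, Units.val_neg, Units.val_mul, neg_mul, mul_assoc]
      have h1 : ((hfu.unit⁻¹ : Eisˣ) : Eis) * f.coeff 0 = 1 := by
        have := hfu.unit.inv_mul
        simpa using this
      rw [h1, mul_one]
      simp
    have hvn : ‖(Coef.emb (v : Eis) : ℂ)‖ = 1 := Eis.norm_emb_unit v.isUnit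
    have h0 : (q + C (v : Eis) * f).coeff 0 = 0 := by
      rw [coeff_add, coeff_C_mul, hvf, add_neg_cancel]
    obtain ⟨E, hE⟩ := X_dvd_iff.mpr h0
    have hEc : (q + C (v : Eis) * f).map (Coef.emb : Eis →+* ℂ) = qc + C (Coef.emb (v : Eis)) * fc := by
      rw [Polynomial.map_add, Polynomial.map_mul, map_C, hqc, hfc]
    have hEc2 : qc + C (Coef.emb (v : Eis)) * fc = X * E.map (Coef.emb : Eis →+* ℂ) := by
      rw [← hEc, hE, Polynomial.map_mul, map_X]
    have hne0 : qc + C (Coef.emb (v : Eis)) * fc ≠ 0 := by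
      intro h1
      apply hne'
      have h2 : qc.eval z0 = -(Coef.emb (v : Eis) * fc.eval z0) := by
        have h3 := congrArg (eval z0) h1
        rw [eval_add, eval_mul, eval_C, eval_zero] at h3
        exact eq_neg_of_add_eq_zero_left h3
      rw [h2, norm_neg, norm_mul, hvn, one_mul]
    have hcard := hPCZ w qc (C (Coef.emb (v : Eis)) * fc) hroots hnz'
      (by
        intro z hz
        rw [eval_mul, eval_C, norm_mul, hvn, one_mul]
        exact hle' z hz) hne0
    have hEne : E.map (Coef.emb : Eis →+* ℂ) ≠ 0 := by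
      intro h1
      rw [h1, mul_zero] at hEc2
      exact hne0 hEc2
    have hEz : ∀ z : ℂ, ‖z‖ < 1 → (E.map (Coef.emb : Eis →+* ℂ)).eval z ≠ 0 := by
      intro z hz h1
      rw [hEc2, roots_mul (by rw [← hEc2]; exact hne0), roots_X, Multiset.filter_add,
        Multiset.card_add] at hcard
      have h2 : 0 < ((E.map (Coef.emb : Eis →+* ℂ)).roots.filter (fun x => ‖x‖ < 1)).card := by
        apply Multiset.card_pos_iff_exists_mem.mpr
        refine ⟨z, ?_⟩
        rw [Multiset.mem_filter]
        exact ⟨(mem_roots hEne).mpr h1, hz⟩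
      have h3 : (({0} : Multiset ℂ).filter (fun x => ‖x‖ < 1)).card = 1 := by
        rw [Multiset.filter_eq_self.mpr, Multiset.card_singleton]
        intro a ha
        rw [Multiset.mem_singleton] at ha
        rw [ha, norm_zero]
        exact one_pos
      omega
    have hEc0 : E.coeff 0 ≠ 0 := by
      intro h1
      have h2 := hEz 0 (by simp)
      rw [← coeff_zero_eq_eval_zero, coeff_map, h1, map_zero] at h2
      exact h2 rfl
    refine ⟨uT v (n - m), ‖(Coef.emb (E.coeff 0) : ℂ)‖, ?_, Coef.one_le _ hEc0, n + 1, E, ?_, rfl, hEz⟩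
    · -- the bound
      obtain ⟨b, hb⟩ : ∃ b : ℂ, b = (starRingEnd ℂ) T⁻¹ := ⟨_, rfl⟩
      have hbn : ‖b‖ < 1 := by
        rw [hb, Complex.norm_conj, norm_inv]
        exact inv_lt_one_of_one_lt₀ hT1
      have hb1 : ∀ z : ℂ, ‖z‖ ≤ 1 → 1 - b * z ≠ 0 := by
        intro z hz h1
        have h2 : b * z = 1 := (sub_eq_zero.mp h1).symm
        have h3 : ‖b‖ * ‖z‖ = 1 := by rw [← norm_mul, h2, norm_one]
        nlinarith [norm_nonneg b, norm_nonneg z]
      have h1 := maxp (E.map (Coef.emb : Eis →+* ℂ)) ((1 - C b * X) * s) (2 * θ)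
        (by
          intro z hz
          rw [eval_mul]
          apply mul_ne_zero _ (hsnz z hz)
          simpa using hb1 z hz)
        (by
          intro z hz
          have h2 : ‖(E.map (Coef.emb : Eis →+* ℂ)).eval z‖ =
              ‖(qc + C (Coef.emb (v : Eis)) * fc).eval z‖ := by
            rw [hEc2, eval_mul, eval_X, norm_mul, hz, one_mul]
          rw [h2, eval_add, eval_mul, eval_C]
          have h3 : ‖qc.eval z + Coef.emb (v : Eis) * fc.eval z‖ ≤ 2 * ‖qc.eval z‖ := by
            calc ‖qc.eval z + Coef.emb (v : Eis) * fc.eval z‖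
                ≤ ‖qc.eval z‖ + ‖Coef.emb (v : Eis) * fc.eval z‖ := norm_add_le _ _
              _ = ‖qc.eval z‖ + ‖fc.eval z‖ := by rw [norm_mul, hvn, one_mul]
              _ ≤ 2 * ‖qc.eval z‖ := by linarith [hle' z hz]
          have h4 : ‖qc.eval z‖ = θ * ‖((1 - C b * X) * s).eval z‖ := by
            rw [hs, eval_mul, eval_mul, norm_mul, norm_mul]
            simp only [eval_sub, eval_one, eval_mul, eval_C, eval_X]
            rw [norm_one_sub T z hT1 hz, ← hb, hTn, mul_assoc]
          rw [h4] at h3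
          linarith)
        0 (by simp)
      rw [eval_mul, norm_mul, hs0] at h1
      simp only [eval_sub, eval_one, eval_mul, eval_C, eval_X, mul_zero, sub_zero, norm_one,
        mul_one] at h1
      rw [← coeff_zero_eq_eval_zero, coeff_map] at h1
      linarith
    · have h1 := add_load q f n m v 0
      rw [Nat.cast_zero, add_zero, pow_zero, mul_one] at h1
      rw [h1, hE, map_mul, toLaurent_X, LaurentPolynomial.T_add]
      ring
  · -- type II
    right
    have hs3 : (1.73 : ℝ) ≤ Real.sqrt 3 := by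
      apply Real.le_sqrt_of_sq_le; norm_num
    have hfn : (1.73 : ℝ) ≤ ‖fc.eval 0‖ := by
      rw [hfc, ← coeff_zero_eq_eval_zero, coeff_map]
      exact hs3.trans (Eis.sqrt3_le hf0 hfu)
    have hc7 : 7 / 10 ≤ ‖c‖ := by
      have h1 : fc.eval 0 = c * s.eval 0 + r.eval 0 := by rw [hY]; simp
      have h2 : ‖fc.eval 0‖ ≤ ‖c‖ * ‖s.eval 0‖ + ‖r.eval 0‖ := by
        rw [h1, ← norm_mul]; exact norm_add_le _ _
      rw [hs0] at h2 hr0
      linarith
    rw [hTn] at hcb
    have hθ75 : 7 / 5 ≤ θ := theta_ge θ ‖c‖ hθ hc7 hcb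
    have hcθ : ‖c‖ ≤ θ := by
      have : 0 < 1 / θ := by positivity
      linarith
    have hc0 : c ≠ 0 := norm_pos_iff.mp (by linarith)
    -- the delay
    have hex : ∃ k : ℕ, 1 ≤ k ∧ 100 * ‖c‖ ≤ θ ^ k := by
      obtain ⟨k, hk⟩ := pow_unbounded_of_one_lt (100 * ‖c‖) hθ
      refine ⟨k + 1, by omega, ?_⟩
      calc 100 * ‖c‖ ≤ θ ^ k := hk.le
        _ ≤ θ ^ (k + 1) := pow_le_pow_right₀ hθ.le (by omega)
    classical
    obtain ⟨k, hk⟩ : ∃ k, k = Nat.find hex := ⟨_, rfl⟩
    have hk1 : 1 ≤ k ∧ 100 * ‖c‖ ≤ θ ^ k := by rw [hk]; exact Nat.find_spec hex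
    have hk2 : k = 1 ∨ θ ^ (k - 1) < 100 * ‖c‖ := by
      rcases Nat.lt_or_ge 1 k with h1 | h1
      · right
        by_contra h2
        push Not at h2
        have h3 : k - 1 < Nat.find hex := by omega
        exact Nat.find_min hex h3 ⟨by omega, h2⟩
      · left; omega
    -- one unit
    have key : ∀ v : Eisˣ, 1 / 2 * ‖c / T ^ k‖ ≤ (Eis.emb (v : Eis) * (c / T ^ k)).re →
        OutP θ (LaurentPolynomial.T n * toLaurent q + ((uT v (n - m + k) : (RO Eis)ˣ) : RO Eis) *
          (LaurentPolynomial.T m * toLaurent f)) := by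
      intro v hvre
      have hvn : ‖(Coef.emb (v : Eis) : ℂ)‖ = 1 := Eis.norm_emb_unit v.isUnit
      rw [add_load q f n m v k]
      obtain ⟨e, he⟩ : ∃ e : ℂ, e = Coef.emb (v : Eis) := ⟨_, rfl⟩
      rw [← he] at hvn
      have hVc : (q + C (v : Eis) * X ^ k * f).map (Coef.emb : Eis →+* ℂ) =
          qc + C e * X ^ k * fc := by
        rw [Polynomial.map_add, Polynomial.map_mul, Polynomial.map_mul, map_C, Polynomial.map_pow,
          map_X, hqc, hfc, he]
      have hk0 : k ≠ 0 := by omega
      have hV0 : (q + C (v : Eis) * X ^ k * f).coeff 0 = q.coeff 0 := by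
        rw [coeff_add, mul_coeff_zero, mul_coeff_zero, coeff_X_pow, if_neg hk0.symm]
        ring
      have hne0 : qc + C e * X ^ k * fc ≠ 0 := by
        intro h1
        rw [← hVc] at h1
        have h2 := congrArg (fun p : ℂ[X] => p.coeff 0) h1
        simp only [coeff_map, coeff_zero] at h2
        rw [hV0] at h2
        rw [h2, norm_zero] at hq1
        exact one_ne_zero hq1.symm
      have hcard := hPCZ w qc (C e * X ^ k * fc) hroots hnz'
        (by
          intro z hz
          rw [eval_mul, eval_mul, eval_C, eval_pow, eval_X, norm_mul, norm_mul, norm_pow, hvn, hz,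
            one_pow, one_mul, one_mul]
          exact hle' z hz) hne0
      rcases Nat.eq_zero_or_pos ((qc + C e * X ^ k * fc).roots.filter (fun x => ‖x‖ < 1)).card
        with h1 | h1
      · -- no zero
        left
        refine ⟨le_rfl, n, _, rfl, ?_, ?_⟩
        · rw [hV0]; exact hq1
        · intro z hz h2
          rw [hVc] at h2
          rw [Multiset.card_eq_zero] at h1
          have h3 : z ∈ (qc + C e * X ^ k * fc).roots.filter (fun x => ‖x‖ < 1) := by
            rw [Multiset.mem_filter]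
            exact ⟨(mem_roots hne0).mpr h2, hz⟩
          rw [h1] at h3
          exact absurd h3 (Multiset.notMem_zero z)
      · -- one zero
        right
        have h2 : ((qc + C e * X ^ k * fc).roots.filter (fun x => ‖x‖ < 1)).card = 1 := by omega
        obtain ⟨b, hb⟩ := Multiset.card_eq_one.mp h2
        have hbm : b ∈ (qc + C e * X ^ k * fc).roots.filter (fun x => ‖x‖ < 1) := by
          rw [hb]; simp
        rw [Multiset.mem_filter] at hbm
        have hbroot : (qc + C e * X ^ k * fc).eval b = 0 := (mem_roots hne0).mp hbm.1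
        have hb0 : b ≠ 0 := by
          rintro rfl
          rw [← hVc, ← coeff_zero_eq_eval_zero, coeff_map, hV0] at hbroot
          rw [hbroot, norm_zero] at hq1
          exact one_ne_zero hq1.symm
        have hbpos : 0 < ‖b‖ := norm_pos_iff.mpr hb0
        have hbinv : 1 < ‖b‖⁻¹ := (one_lt_inv₀ hbpos).mpr hbm.2
        have hsb : s.eval b ≠ 0 := hsnz b hbm.2.le
        refine ⟨‖b‖⁻¹, ?_, hbinv, n, _, rfl, ?_, b, ?_, ?_⟩
        · -- PCB
          obtain ⟨h, hh⟩ : ∃ h : ℂ, h = r.eval b / s.eval b := ⟨_, rfl⟩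
          have hrs : r.eval b = h * s.eval b := by rw [hh]; field_simp
          have hh3 : ‖h‖ ≤ 3 := by
            rw [hh, norm_div, div_le_iff₀ (norm_pos_iff.mpr hsb)]
            exact hrb b hbm.2.le
          have hcT : ‖c / T ^ k‖ = ‖c‖ / θ ^ k := by rw [norm_div, norm_pow, hTn]
          have h3 := pcb T b⁻¹ c e h k (by rw [hTn]; exact hθ75) hc7 (by rw [hTn]; exact hcθ) hk1.1
            (by rw [hTn]; exact hk1.2) (by rw [hTn]; exact hk2) hvn
            (by
              rw [hcT] at hvre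
              rw [hTn]
              have h4 : e * c / T ^ k = Eis.emb (v : Eis) * (c / T ^ k) := by
                rw [he]
                change Eis.emb (v : Eis) * c / T ^ k = Eis.emb (v : Eis) * (c / T ^ k)
                ring
              rw [h4]
              calc ‖c‖ / (2 * θ ^ k) = 1 / 2 * (‖c‖ / θ ^ k) := by
                    field_simp
                _ ≤ _ := hvre)
            hh3 (by rw [norm_inv]; exact hbinv)
            (by
              have h4 : ((1 - T * b) * (1 + e * h * b ^ k) + e * c * b ^ k) * s.eval b = 0 := by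
                have h5 := hbroot
                rw [hs, hY] at h5
                simp only [eval_add, eval_mul, eval_sub, eval_one, eval_C, eval_X, eval_pow] at h5
                rw [hrs] at h5
                linear_combination h5
              have h6 : (1 - T * b) * (1 + e * h * b ^ k) + e * c * b ^ k = 0 :=
                (mul_eq_zero.mp h4).resolve_right hsb
              have h7 : e * h / b⁻¹ ^ k = e * h * b ^ k := by
                rw [inv_pow, div_inv_eq_mul]
              have h8 : e * c * b⁻¹ / b⁻¹ ^ k = e * c * b ^ k * b⁻¹ := by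
                rw [inv_pow, div_inv_eq_mul]; ring
              rw [h7, h8]
              have h9 : (T - b⁻¹) = -((1 - T * b) * b⁻¹) := by
                field_simp
                ring
              rw [h9]
              linear_combination (-b⁻¹) * h6)
          rw [norm_inv, hTn] at h3
          exact h3
        · rw [hV0]; exact hq1
        · rw [inv_inv]
        · rw [hVc]; exact hb
    obtain ⟨u, v, hu, hv, huv, h1, h2⟩ := Eis.best (c / T ^ k)
    refine ⟨uT hu.unit (n - m + k), uT hv.unit (n - m + k), ?_, key hu.unit ?_, key hv.unit ?_⟩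
    · apply uT_ne
      intro h3
      apply huv
      have h4 := congrArg Units.val h3
      simpa using h4
    · have h3 : 1 / 2 * ‖c / T ^ k‖ ≤ Real.sqrt 3 / 2 * ‖c / T ^ k‖ := by
        apply mul_le_mul_of_nonneg_right _ (norm_nonneg _)
        linarith
      exact h3.trans h1
    · exact h2

end Pool.Agent.B5.H40
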