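import Pool.Agent.Lib.MP_b5021c_nt.IfaceL2
import Pool.Agent.Lib.MP_b5021c_nt.B.H40.LoadBase

/-!
# Board b5, row LOV: the loads in class `V`
-/

namespace Pool.Agent.B5.H40

open Polynomial
open Pool.Agent.MP_b5021c_nt (Eis)

/-- Row LOV. -/
theorem lov (hVZ : VZS) : LOVS := by
  intro N Q F hQ hF hnz hle hne
  obtain ⟨hN1, n, q, rfl, hqN, hqz⟩ := hQ
  obtain ⟨m, f, rfl, hf0⟩ := exists_normal F hF
  obtain ⟨hnz', hle', hne'⟩ := to_poly n m q f hnz hle hne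
  have hqcl : ∀ z : ℂ, ‖z‖ ≤ 1 → (q.map (Coef.emb : Eis →+* ℂ)).eval z ≠ 0 := by
    intro z hz
    rcases lt_or_eq_of_le hz with h1 | h1
    · exact hqz z h1
    · exact hnz' z h1
  have hlt := hVZ _ _ hqcl hle' hne'
  -- constant terms
  obtain ⟨x, hx⟩ : ∃ x : ℂ, x = Coef.emb (q.coeff 0) := ⟨_, rfl⟩
  obtain ⟨y, hy⟩ : ∃ y : ℂ, y = Coef.emb (f.coeff 0) := ⟨_, rfl⟩
  have hxN : ‖x‖ = N := by rw [hx]; exact hqN
  have hy1 : 1 ≤ ‖y‖ := by rw [hy]; exact Coef.one_le _ hf0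
  have hyN : ‖y‖ < N := by
    have h1 := hlt 0 (by simp)
    rw [← coeff_zero_eq_eval_zero, ← coeff_zero_eq_eval_zero, coeff_map, coeff_map, ← hx, ← hy,
      hxN] at h1
    exact h1
  -- every unit gives class `V`
  have key : ∀ u : Eisˣ, ClassV ‖x + Eis.emb (u : Eis) * y‖
      (LaurentPolynomial.T n * toLaurent q + ((uT u (n - m) : (RO Eis)ˣ) : RO Eis) *
        (LaurentPolynomial.T m * toLaurent f)) := by
    intro u
    have hu1 : ‖(Coef.emb (u : Eis) : ℂ)‖ = 1 := Eis.norm_emb_unit u.isUnit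
    have h1 := add_load q f n m u 0
    rw [Nat.cast_zero, add_zero, pow_zero, mul_one] at h1
    rw [h1]
    have hc : Coef.emb ((q + C (u : Eis) * f).coeff 0) = x + Eis.emb (u : Eis) * y := by
      rw [coeff_add, coeff_C_mul, map_add, map_mul, hx, hy]
      rfl
    have hz : ∀ z : ℂ, ‖z‖ < 1 → ((q + C (u : Eis) * f).map Coef.emb).eval z ≠ 0 := by
      intro z hz h0
      rw [Polynomial.map_add, Polynomial.map_mul, map_C, eval_add, eval_mul, eval_C] at h0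
      have h2 : (q.map (Coef.emb : Eis →+* ℂ)).eval z =
          -(Coef.emb (u : Eis) * (f.map (Coef.emb : Eis →+* ℂ)).eval z) := eq_neg_of_add_eq_zero_left h0
      have h3 := hlt z hz
      rw [h2, norm_neg, norm_mul, hu1, one_mul] at h3
      exact lt_irrefl _ h3
    refine ⟨?_, n, q + C (u : Eis) * f, rfl, by rw [hc], hz⟩
    have h4 : (q + C (u : Eis) * f).coeff 0 ≠ 0 := by
      intro h5
      have h6 := hz 0 (by simp)
      rw [← coeff_zero_eq_eval_zero, coeff_map, h5, map_zero] at h6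
      exact h6 rfl
    rw [← hc]
    exact Coef.one_le _ h4
  obtain ⟨u, v, hu, hv, huv, h1, h2⟩ := Eis.best_add x y
  rw [hxN] at h1 h2
  have hs3 : (1.73 : ℝ) ≤ Real.sqrt 3 := by
    apply Real.le_sqrt_of_sq_le; norm_num
  have hNy : 0 ≤ N * ‖y‖ := by positivity
  rcases lt_or_ge ‖y‖ (N / 2) with hc | hc
  · left
    have hb : ∀ t : ℝ, 0 ≤ t → t ^ 2 ≤ N ^ 2 + ‖y‖ ^ 2 - N * ‖y‖ → t ≤ N - 1 / 4 := by
      intro t ht h3
      apply le_of_sq_le_sq _ (by linarith)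
      nlinarith
    refine ⟨uT hu.unit (n - m), uT hv.unit (n - m), ?_, ⟨_, ?_, key hu.unit⟩,
      ⟨_, ?_, key hv.unit⟩⟩
    · apply uT_ne
      intro h3
      apply huv
      have h4 := congrArg Units.val h3
      simpa using h4
    · apply hb _ (norm_nonneg _)
      have h3 : N ^ 2 + ‖y‖ ^ 2 - Real.sqrt 3 * N * ‖y‖ ≤ N ^ 2 + ‖y‖ ^ 2 - N * ‖y‖ := by
        nlinarith
      exact h1.trans h3
    · exact hb _ (norm_nonneg _) h2
  · right
    refine ⟨uT hu.unit (n - m), _, ?_, key hu.unit⟩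
    apply le_of_sq_le_sq _ (by positivity)
    have h3 : N ^ 2 + ‖y‖ ^ 2 - Real.sqrt 3 * N * ‖y‖ ≤ N ^ 2 + ‖y‖ ^ 2 - 1.73 * (N * ‖y‖) := by
      nlinarith
    have h4 : (‖y‖ - N / 2) * (N - ‖y‖) ≥ 0 := mul_nonneg (by linarith) (by linarith)
    have h5 : ‖x + Eis.emb u * y‖ ^ 2 ≤ (63 / 100 * N) ^ 2 := by
      nlinarith
    exact h5

end Pool.Agent.B5.H40
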