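import Pool.Agent.Lib.MP_b5021c_nt.IfaceB

/-!
# Board b5, row A4C: Schwarz-Pick at the origin for a quotient of polynomials
-/

namespace Pool.Agent.B5.H40

open Polynomial Metric

/-- The strict case without common zeros. -/
theorem sp_strict (x y : ℂ[X]) (hx : ∀ s : ℂ, ‖s‖ < 1 → x.eval s ≠ 0)
    (h : ∀ s : ℂ, ‖s‖ < 1 → ‖y.eval s‖ ≤ ‖x.eval s‖) (h0 : ‖y.coeff 0‖ < ‖x.coeff 0‖) :
    ‖x.coeff 0 * y.coeff 1 - y.coeff 0 * x.coeff 1‖ ≤ ‖x.coeff 0‖ ^ 2 - ‖y.coeff 0‖ ^ 2 := by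
  have hx0 : 0 < ‖x.coeff 0‖ := (norm_nonneg _).trans_lt h0
  have hxne : x.coeff 0 ≠ 0 := norm_pos_iff.mp hx0
  obtain ⟨a, ha⟩ : ∃ a : ℂ, a = y.coeff 0 / x.coeff 0 := ⟨_, rfl⟩
  have hya : y.coeff 0 = a * x.coeff 0 := by rw [ha]; field_simp
  have han : ‖a‖ < 1 := by rw [ha, norm_div, div_lt_one hx0]; exact h0
  obtain ⟨b, hb⟩ : ∃ b : ℂ, b = (starRingEnd ℂ) a := ⟨_, rfl⟩
  have hbn : ‖b‖ < 1 := by rw [hb, Complex.norm_conj]; exact han
  obtain ⟨u, hu⟩ : ∃ u : ℂ[X], u = y - C a * x := ⟨_, rfl⟩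
  obtain ⟨v, hv⟩ : ∃ v : ℂ[X], v = x - C b * y := ⟨_, rfl⟩
  have hue : ∀ s : ℂ, u.eval s = y.eval s - a * x.eval s := by
    intro s; rw [hu]; simp
  have hve : ∀ s : ℂ, v.eval s = x.eval s - b * y.eval s := by
    intro s; rw [hv]; simp
  have hv0 : ∀ s : ℂ, ‖s‖ < 1 → v.eval s ≠ 0 := by
    intro s hs h1
    rw [hve] at h1
    have h2 : x.eval s = b * y.eval s := sub_eq_zero.mp h1
    have h3 : ‖x.eval s‖ = ‖b‖ * ‖y.eval s‖ := by rw [h2, norm_mul]
    have h4 : 0 < ‖x.eval s‖ := norm_pos_iff.mpr (hx s hs)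
    have h5 := h s hs
    nlinarith [norm_nonneg b, norm_nonneg (y.eval s)]
  have huv : ∀ s : ℂ, ‖s‖ < 1 → ‖u.eval s‖ ≤ ‖v.eval s‖ := by
    intro s hs
    have h5 := h s hs
    have key : ‖v.eval s‖ ^ 2 - ‖u.eval s‖ ^ 2 =
        (1 - ‖a‖ ^ 2) * (‖x.eval s‖ ^ 2 - ‖y.eval s‖ ^ 2) := by
      rw [hue, hve, hb]
      simp only [← Complex.normSq_eq_norm_sq, Complex.normSq_apply, Complex.sub_re, Complex.sub_im,
        Complex.mul_re, Complex.mul_im, Complex.conj_re, Complex.conj_im]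
      ring
    have h6 : 0 ≤ (1 - ‖a‖ ^ 2) * (‖x.eval s‖ ^ 2 - ‖y.eval s‖ ^ 2) := by
      apply mul_nonneg
      · nlinarith [norm_nonneg a]
      · nlinarith [norm_nonneg (y.eval s)]
    have h7 : ‖u.eval s‖ ^ 2 ≤ ‖v.eval s‖ ^ 2 := by linarith
    exact le_of_sq_le_sq h7 (norm_nonneg _)
  have hu0 : u.eval 0 = 0 := by
    rw [hue, ← coeff_zero_eq_eval_zero, ← coeff_zero_eq_eval_zero, hya, sub_self]
  have hd : DifferentiableOn ℂ (fun s => u.eval s / v.eval s) (ball 0 1) := by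
    apply DifferentiableOn.div u.differentiable.differentiableOn v.differentiable.differentiableOn
    intro s hs
    exact hv0 s (by simpa using hs)
  have h1 := Complex.norm_deriv_le_one_of_mapsTo_ball (f := fun s => u.eval s / v.eval s)
    (c := 0) (R := 1) hd
    (by
      intro s hs
      have hs1 : ‖s‖ < 1 := by simpa using hs
      have h2 : 0 < ‖v.eval s‖ := norm_pos_iff.mpr (hv0 s hs1)
      simp only [hu0, zero_div, mem_closedBall, dist_zero_right, norm_div]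
      rw [div_le_one h2]
      exact huv s hs1)
    one_pos
  have hv00 : v.eval 0 ≠ 0 := hv0 0 (by simp)
  have h2 : deriv (fun s => u.eval s / v.eval s) 0 = u.derivative.eval 0 / v.eval 0 := by
    have h3 : HasDerivAt (fun s => u.eval s / v.eval s)
        ((eval 0 (derivative u) * eval 0 v - eval 0 u * eval 0 (derivative v)) / eval 0 v ^ 2) 0 :=
      (u.hasDerivAt 0).div (v.hasDerivAt 0) hv00
    rw [h3.deriv, hu0]
    field_simp
    ring
  rw [h2] at h1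
  have hc1 : ∀ p : ℂ[X], p.derivative.eval 0 = p.coeff 1 := by
    intro p
    rw [← coeff_zero_eq_eval_zero, coeff_derivative]
    simp
  have h4 : u.derivative.eval 0 = y.coeff 1 - a * x.coeff 1 := by
    rw [hc1, hu]; simp
  have h5 : v.eval 0 = x.coeff 0 * (1 - ‖a‖ ^ 2 : ℝ) := by
    rw [hve, ← coeff_zero_eq_eval_zero, ← coeff_zero_eq_eval_zero, hya, hb]
    have : (starRingEnd ℂ) a * (a * x.coeff 0) = (a * (starRingEnd ℂ) a) * x.coeff 0 := by ring
    rw [this, Complex.mul_conj, Complex.normSq_eq_norm_sq]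
    push_cast
    ring
  have h6 : 0 < 1 - ‖a‖ ^ 2 := by nlinarith [norm_nonneg a]
  rw [norm_div, div_le_one (norm_pos_iff.mpr hv00), h4, h5, norm_mul, Complex.norm_real,
    Real.norm_eq_abs, abs_of_pos h6] at h1
  have h7 : x.coeff 0 * y.coeff 1 - y.coeff 0 * x.coeff 1 =
      x.coeff 0 * (y.coeff 1 - a * x.coeff 1) := by
    rw [hya]; ring
  rw [h7, norm_mul, hya, norm_mul]
  nlinarith

/-- Common factors are removed. -/
theorem sp_coprime (x y : ℂ[X]) (h : ∀ s : ℂ, ‖s‖ < 1 → ‖y.eval s‖ ≤ ‖x.eval s‖)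
    (h0 : ‖y.coeff 0‖ < ‖x.coeff 0‖) :
    ‖x.coeff 0 * y.coeff 1 - y.coeff 0 * x.coeff 1‖ ≤ ‖x.coeff 0‖ ^ 2 - ‖y.coeff 0‖ ^ 2 := by
  classical
  have hxne : x ≠ 0 := by
    rintro rfl
    simp at h0
    linarith [norm_nonneg (y.coeff 0)]
  obtain ⟨p, x1, y1, hx, hy, A, B, hco⟩ : ∃ p x1 y1 : ℂ[X], x = p * x1 ∧ y = p * y1 ∧
      ∃ A B : ℂ[X], x1 * A + y1 * B = 1 := by
    obtain ⟨x1, hx1⟩ := EuclideanDomain.gcd_dvd_left x y
    obtain ⟨y1, hy1⟩ := EuclideanDomain.gcd_dvd_right x y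
    refine ⟨EuclideanDomain.gcd x y, x1, y1, hx1, hy1, EuclideanDomain.gcdA x y,
      EuclideanDomain.gcdB x y, ?_⟩
    have hg : EuclideanDomain.gcd x y ≠ 0 := by
      intro h1; exact hxne (EuclideanDomain.gcd_eq_zero_iff.mp h1).1
    have h2 := EuclideanDomain.gcd_eq_gcd_ab x y
    apply mul_left_cancel₀ hg
    rw [mul_one]
    conv_rhs => rw [h2]
    conv_rhs =>
      rw [show x * EuclideanDomain.gcdA x y = (EuclideanDomain.gcd x y * x1) * EuclideanDomain.gcdA x y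
        by rw [← hx1]]
      rw [show y * EuclideanDomain.gcdB x y = (EuclideanDomain.gcd x y * y1) * EuclideanDomain.gcdB x y
        by rw [← hy1]]
    ring
  have hp : p ≠ 0 := by rintro rfl; simp at hx; exact hxne hx
  -- the inequality for the cofactors
  have h1 : ∀ s : ℂ, ‖s‖ < 1 → ‖y1.eval s‖ ≤ ‖x1.eval s‖ := by
    intro s hs
    have hdense : Dense (((p.roots.toFinset : Set ℂ))ᶜ) :=
      Set.Countable.dense_compl ℂ (Finset.countable_toSet _)
    have hcl : IsClosed {s : ℂ | ‖y1.eval s‖ ≤ ‖x1.eval s‖} :=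
      isClosed_le (by fun_prop) (by fun_prop)
    have hsub : ball (0 : ℂ) 1 ∩ ((p.roots.toFinset : Set ℂ))ᶜ ⊆
        {s : ℂ | ‖y1.eval s‖ ≤ ‖x1.eval s‖} := by
      rintro t ⟨ht, htp⟩
      have ht1 : ‖t‖ < 1 := by simpa using ht
      have hpt : p.eval t ≠ 0 := by
        intro h3
        apply htp
        simp [hp, h3]
      have h4 := h t ht1
      rw [hx, hy, eval_mul, eval_mul, norm_mul, norm_mul] at h4
      exact le_of_mul_le_mul_left h4 (norm_pos_iff.mpr hpt)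
    have hmem : s ∈ closure (ball (0 : ℂ) 1 ∩ ((p.roots.toFinset : Set ℂ))ᶜ) :=
      hdense.open_subset_closure_inter isOpen_ball (by simpa using hs)
    exact (closure_minimal hsub hcl) hmem
  have h2 : ∀ s : ℂ, ‖s‖ < 1 → x1.eval s ≠ 0 := by
    intro s hs h3
    have h4 := h1 s hs
    rw [h3, norm_zero] at h4
    have h5 : y1.eval s = 0 := norm_le_zero_iff.mp h4
    have h6 := congrArg (eval s) hco
    simp [h3, h5] at h6
  have hx0 : x.coeff 0 = p.coeff 0 * x1.coeff 0 := by rw [hx, mul_coeff_zero]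
  have hy0 : y.coeff 0 = p.coeff 0 * y1.coeff 0 := by rw [hy, mul_coeff_zero]
  have hx1 : x.coeff 1 = p.coeff 0 * x1.coeff 1 + p.coeff 1 * x1.coeff 0 := by
    rw [hx, coeff_mul]
    simp [Finset.Nat.antidiagonal_succ]
  have hy1 : y.coeff 1 = p.coeff 0 * y1.coeff 1 + p.coeff 1 * y1.coeff 0 := by
    rw [hy, coeff_mul]
    simp [Finset.Nat.antidiagonal_succ]
  have h3 : ‖y1.coeff 0‖ < ‖x1.coeff 0‖ := by
    rw [hx0, hy0, norm_mul, norm_mul] at h0
    exact lt_of_mul_lt_mul_left h0 (norm_nonneg _)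
  have h4 := sp_strict x1 y1 h2 h1 h3
  have h5 : x.coeff 0 * y.coeff 1 - y.coeff 0 * x.coeff 1 =
      p.coeff 0 ^ 2 * (x1.coeff 0 * y1.coeff 1 - y1.coeff 0 * x1.coeff 1) := by
    rw [hx0, hy0, hx1, hy1]; ring
  rw [h5, norm_mul, norm_pow, hx0, hy0, norm_mul, norm_mul, mul_pow, mul_pow, ← mul_sub]
  exact mul_le_mul_of_nonneg_left h4 (by positivity)

/-- Row A4C. -/
theorem a4c : A4S := by
  intro x y h
  have h0 : ‖y.coeff 0‖ ≤ ‖x.coeff 0‖ := by
    have := h 0 (by simp)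
    rwa [← coeff_zero_eq_eval_zero, ← coeff_zero_eq_eval_zero] at this
  rcases eq_or_ne (x.coeff 0) 0 with h1 | h1
  · rw [h1, norm_zero] at h0
    have h2 : y.coeff 0 = 0 := norm_le_zero_iff.mp h0
    simp [h1, h2]
  · have hx0 : 0 < ‖x.coeff 0‖ := norm_pos_iff.mpr h1
    have key : ∀ r : ℝ, 0 ≤ r → r < 1 →
        r * ‖x.coeff 0 * y.coeff 1 - y.coeff 0 * x.coeff 1‖ ≤
          ‖x.coeff 0‖ ^ 2 - (r * ‖y.coeff 0‖) ^ 2 := by
      intro r hr hr1
      have h2 := sp_coprime x (C (r : ℂ) * y)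
        (by
          intro s hs
          rw [eval_mul, eval_C, norm_mul, Complex.norm_real, Real.norm_eq_abs, abs_of_nonneg hr]
          have := h s hs
          nlinarith [norm_nonneg (y.eval s)])
        (by
          rw [coeff_C_mul, norm_mul, Complex.norm_real, Real.norm_eq_abs, abs_of_nonneg hr]
          nlinarith [norm_nonneg (y.coeff 0)])
      rw [coeff_C_mul, coeff_C_mul, norm_mul, Complex.norm_real, Real.norm_eq_abs,
        abs_of_nonneg hr] at h2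
      have h3 : x.coeff 0 * ((r : ℂ) * y.coeff 1) - (r : ℂ) * y.coeff 0 * x.coeff 1 =
          (r : ℂ) * (x.coeff 0 * y.coeff 1 - y.coeff 0 * x.coeff 1) := by ring
      rw [h3, norm_mul, Complex.norm_real, Real.norm_eq_abs, abs_of_nonneg hr] at h2
      exact h2
    have hlim : Filter.Tendsto (fun r : ℝ => r * ‖x.coeff 0 * y.coeff 1 - y.coeff 0 * x.coeff 1‖)
        (nhdsWithin 1 (Set.Iio 1)) (nhds (1 * ‖x.coeff 0 * y.coeff 1 - y.coeff 0 * x.coeff 1‖)) :=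
      (Continuous.tendsto (by fun_prop) 1).mono_left nhdsWithin_le_nhds
    have hlim2 : Filter.Tendsto (fun r : ℝ => ‖x.coeff 0‖ ^ 2 - (r * ‖y.coeff 0‖) ^ 2)
        (nhdsWithin 1 (Set.Iio 1)) (nhds (‖x.coeff 0‖ ^ 2 - (1 * ‖y.coeff 0‖) ^ 2)) :=
      (Continuous.tendsto (f := fun r : ℝ => ‖x.coeff 0‖ ^ 2 - (r * ‖y.coeff 0‖) ^ 2)
        (by fun_prop) 1).mono_left nhdsWithin_le_nhds
    have h4 := le_of_tendsto_of_tendsto hlim hlim2 (by
      have h5 : ∀ᶠ r : ℝ in nhdsWithin 1 (Set.Iio 1), r < 1 := self_mem_nhdsWithin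
      have h6 : ∀ᶠ r : ℝ in nhdsWithin 1 (Set.Iio 1), 0 < r :=
        mem_nhdsWithin_of_mem_nhds (Ioi_mem_nhds one_pos)
      filter_upwards [h5, h6] with r hr1 hr0
      exact key r hr0.le hr1)
    simpa using h4

end Pool.Agent.B5.H40
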